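import Pool.Agent.Lib.MP_a55e6f_al.Uni.Interfaces

/-!
# MP_a55e6f_al, module R: the map `E : B → S`
-/

set_option autoImplicit false

universe u

open MvPolynomial

attribute [local instance 100] LieRing.ofAssociativeRing

namespace Pool.Agent.A55u.H52

section basic
variable {k M : Type u} [Field k] [Monoid M]

omit [Monoid M] in
theorem iota_single (w : M) (c : k) :
    iota (MonoidAlgebra.single w c : MonoidAlgebra k M) = c • (X w : MvPolynomial M k) := by
  simp [iota]

omit [Monoid M] in
theorem iota_one_single (w : M) :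
    iota (MonoidAlgebra.single w (1 : k)) = (X w : MvPolynomial M k) := by
  rw [iota_single, one_smul]

omit [Monoid M] in
/-- Linear maps out of the monoid algebra agree if they agree on the basis. -/
theorem lin_ext {N : Type u} [AddCommMonoid N] [Module k N]
    (f g : MonoidAlgebra k M →ₗ[k] N)
    (h : ∀ w, f (MonoidAlgebra.single w 1) = g (MonoidAlgebra.single w 1)) : f = g := by
  refine LinearMap.ext fun x => ?_
  induction x using MonoidAlgebra.induction_linear with
  | zero => simp
  | add x y hx hy => rw [map_add, map_add, hx, hy]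
  | single m r =>
    have : MonoidAlgebra.single m r = r • MonoidAlgebra.single m (1 : k) := by
      rw [MonoidAlgebra.smul_single, smul_eq_mul, mul_one]
    rw [this, map_smul, map_smul, h]

/-- Left multiplication derivation. -/
noncomputable def Dl (v : MonoidAlgebra k M) :
    Derivation k (MvPolynomial M k) (MvPolynomial M k) :=
  mkDerivation k (fun w => iota (v * MonoidAlgebra.single w 1))

/-- Right multiplication derivation. -/
noncomputable def Dr (v : MonoidAlgebra k M) :
    Derivation k (MvPolynomial M k) (MvPolynomial M k) :=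
  mkDerivation k (fun w => iota (MonoidAlgebra.single w 1 * v))

theorem Dl_X (v : MonoidAlgebra k M) (w : M) :
    Dl v (X w) = iota (v * MonoidAlgebra.single w 1) := by
  rw [Dl, mkDerivation_X]

theorem Dr_X (v : MonoidAlgebra k M) (w : M) :
    Dr v (X w) = iota (MonoidAlgebra.single w 1 * v) := by
  rw [Dr, mkDerivation_X]

theorem Dl_iota (v b : MonoidAlgebra k M) : Dl v (iota b) = iota (v * b) := by
  have h : ((Dl v : Derivation k (MvPolynomial M k) (MvPolynomial M k)) :
      MvPolynomial M k →ₗ[k] MvPolynomial M k) ∘ₗ iota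
      = iota ∘ₗ LinearMap.mulLeft k v := by
    apply lin_ext
    intro w
    simp only [LinearMap.comp_apply, Derivation.coeFn_coe, LinearMap.mulLeft_apply]
    rw [iota_one_single, Dl_X]
  exact LinearMap.congr_fun h b

theorem Dr_iota (v b : MonoidAlgebra k M) : Dr v (iota b) = iota (b * v) := by
  have h : ((Dr v : Derivation k (MvPolynomial M k) (MvPolynomial M k)) :
      MvPolynomial M k →ₗ[k] MvPolynomial M k) ∘ₗ iota
      = iota ∘ₗ LinearMap.mulRight k v := by
    apply lin_ext
    intro w
    simp only [LinearMap.comp_apply, Derivation.coeFn_coe, LinearMap.mulRight_apply]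
    rw [iota_one_single, Dr_X]
  exact LinearMap.congr_fun h b

theorem Dl_add (v v' : MonoidAlgebra k M) : Dl (v + v') = Dl v + Dl v' := by
  apply MvPolynomial.derivation_ext
  intro w
  rw [Derivation.add_apply, Dl_X, Dl_X, Dl_X, add_mul, map_add]

theorem Dl_smul (c : k) (v : MonoidAlgebra k M) : Dl (c • v) = c • Dl v := by
  apply MvPolynomial.derivation_ext
  intro w
  rw [Derivation.smul_apply, Dl_X, Dl_X, smul_mul_assoc, map_smul]

/-- The operator `rho v = mul (iota v) + D_v`. -/
noncomputable def rho : MonoidAlgebra k M →ₗ[k] Module.End k (MvPolynomial M k) where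
  toFun v := LinearMap.mulLeft k (iota v) + (Dl v : MvPolynomial M k →ₗ[k] MvPolynomial M k)
  map_add' v v' := by
    refine LinearMap.ext fun f => ?_
    simp only [map_add, LinearMap.add_apply, LinearMap.mulLeft_apply, Derivation.coeFn_coe,
      Dl_add, Derivation.add_apply, add_mul]
    ring
  map_smul' c v := by
    refine LinearMap.ext fun f => ?_
    simp only [map_smul, LinearMap.add_apply, LinearMap.mulLeft_apply, Derivation.coeFn_coe,
      Dl_smul, Derivation.smul_apply, smul_mul_assoc, LinearMap.smul_apply, RingHom.id_apply,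
      smul_add]

theorem rho_apply (v : MonoidAlgebra k M) (f : MvPolynomial M k) :
    rho v f = iota v * f + Dl v f := rfl

/-- The operator `rho' v = mul (iota v) + D'_v`. -/
noncomputable def rhor (v : MonoidAlgebra k M) : Module.End k (MvPolynomial M k) :=
  LinearMap.mulLeft k (iota v) + (Dr v : MvPolynomial M k →ₗ[k] MvPolynomial M k)

theorem rhor_apply (v : MonoidAlgebra k M) (f : MvPolynomial M k) :
    rhor v f = iota v * f + Dr v f := rfl

theorem Dl_Dl (v v' : MonoidAlgebra k M) (f : MvPolynomial M k) :
    Dl v (Dl v' f) - Dl v' (Dl v f) = Dl (v * v' - v' * v) f := by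
  have h : ⁅Dl v, Dl v'⁆ = Dl (v * v' - v' * v) := by
    apply MvPolynomial.derivation_ext
    intro w
    rw [Derivation.commutator_apply, Dl_X, Dl_X, Dl_iota, Dl_iota, Dl_X, ← map_sub, sub_mul,
      mul_assoc, mul_assoc]
  rw [← h, Derivation.commutator_apply]

theorem Dl_Dr (v v' : MonoidAlgebra k M) (f : MvPolynomial M k) :
    Dl v (Dr v' f) = Dr v' (Dl v f) := by
  have h : ⁅Dl v, Dr v'⁆ = 0 := by
    apply MvPolynomial.derivation_ext
    intro w
    rw [Derivation.commutator_apply, Dl_X, Dr_X, Dl_iota, Dr_iota, mul_assoc, sub_self]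
    rfl
  have h2 : ⁅Dl v, Dr v'⁆ f = 0 := by rw [h]; rfl
  rw [Derivation.commutator_apply, sub_eq_zero] at h2
  exact h2

theorem rho_lie (v v' : MonoidAlgebra k M) :
    rho (v * v' - v' * v) = rho v * rho v' - rho v' * rho v := by
  refine LinearMap.ext fun f => ?_
  simp only [LinearMap.sub_apply, Module.End.mul_apply, rho_apply, map_add, Derivation.leibniz,
    Dl_iota, smul_eq_mul]
  rw [← Dl_Dl, map_sub]
  ring

theorem rho_rhor (v v' : MonoidAlgebra k M) : Commute (rho v) (rhor v') := by
  show rho v * rhor v' = rhor v' * rho v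
  refine LinearMap.ext fun f => ?_
  simp only [Module.End.mul_apply, rho_apply, rhor_apply, map_add, Derivation.leibniz,
    Dl_iota, Dr_iota, smul_eq_mul]
  rw [Dl_Dr]
  ring

end basic

/-! ## Filtered pieces in general -/

section filt
variable {k M : Type u} {Γ : Type*} [Field k] [AddCommMonoid Γ]

/-- General weight conditions on the monomials. -/
def FG (k : Type u) [Field k] {M : Type u} {Γ : Type*} [AddCommMonoid Γ] (rel : Γ → Γ → Prop) (κ : M → Γ)
    (r : Γ) : Submodule k (MvPolynomial M k) where
  carrier := {f | ∀ m, f.coeff m ≠ 0 → rel (m.sum fun w n => n • κ w) r}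
  add_mem' := by
    intro f g hf hg m hm
    by_contra hne
    have h1 : f.coeff m = 0 := by
      by_contra h; exact hne (hf m h)
    have h2 : g.coeff m = 0 := by
      by_contra h; exact hne (hg m h)
    exact hm (by simp [h1, h2])
  zero_mem' := by intro m hm; simp at hm
  smul_mem' := by
    intro c f hf m hm
    refine hf m fun h => hm ?_
    simp [h]

variable {rel : Γ → Γ → Prop} {κ : M → Γ}

theorem mem_FG {r : Γ} {f : MvPolynomial M k} :
    f ∈ FG k rel κ r ↔ ∀ m, f.coeff m ≠ 0 → rel (m.sum fun w n => n • κ w) r := Iff.rfl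

theorem wt_add (κ : M → Γ) (m m' : M →₀ ℕ) :
    ((m + m').sum fun w n => n • κ w) = (m.sum fun w n => n • κ w) + m'.sum fun w n => n • κ w := by
  classical
  exact Finsupp.sum_add_index' (by simp) (by intro w c d; rw [add_smul])

theorem wt_single (κ : M → Γ) (w : M) :
    ((Finsupp.single w 1).sum fun w n => n • κ w) = κ w := by
  rw [Finsupp.sum_single_index (by simp), one_smul]

theorem monomial_mem_FG {r : Γ} {m : M →₀ ℕ} (h : rel (m.sum fun w n => n • κ w) r) (c : k) :
    monomial m c ∈ FG k rel κ r := by
  classical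
  intro m' hm'
  rw [coeff_monomial] at hm'
  by_cases hmm : m = m'
  · rw [← hmm]; exact h
  · simp [hmm] at hm'

theorem mul_mem_FG (hadd : ∀ a b c d, rel a b → rel c d → rel (a + c) (b + d)) {r r' : Γ}
    {f g : MvPolynomial M k} (hf : f ∈ FG k rel κ r) (hg : g ∈ FG k rel κ r') :
    f * g ∈ FG k rel κ (r + r') := by
  classical
  intro m hm
  rw [coeff_mul] at hm
  obtain ⟨p, hp, hne⟩ := Finset.exists_ne_zero_of_sum_ne_zero hm
  rw [Finset.HasAntidiagonal.mem_antidiagonal] at hp
  rw [← hp, wt_add]
  exact hadd _ _ _ _ (hf _ (left_ne_zero_of_mul hne)) (hg _ (right_ne_zero_of_mul hne))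

theorem mono_FG (htr : ∀ a b c, rel a b → rel b c → rel a c) {r r' : Γ} (h : rel r r') :
    FG k rel κ r ≤ FG k rel κ r' := fun _ hf m hm => htr _ _ _ (hf m hm) h

/-- Linear maps on `FG` can be checked on monomials. -/
theorem lin_FG {N : Type u} [AddCommMonoid N] [Module k N] (L : MvPolynomial M k →ₗ[k] N)
    (P : Submodule k N) (f : MvPolynomial M k)
    (h : ∀ m, f.coeff m ≠ 0 → L (monomial m 1) ∈ P) : L f ∈ P := by
  classical
  rw [f.as_sum, map_sum]
  refine Submodule.sum_mem _ fun m hm => ?_
  have : monomial m (coeff m f) = coeff m f • monomial m (1 : k) := by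
    rw [smul_monomial, smul_eq_mul, mul_one]
  rw [this, map_smul]
  exact P.smul_mem _ (h m (mem_support_iff.1 hm))

theorem der_FG (hadd : ∀ a b c d, rel a b → rel c d → rel (a + c) (b + d))
    (htr : ∀ a b c, rel a b → rel b c → rel a c) (hrefl : ∀ a, rel a a)
    (F : M → MvPolynomial M k) (s : Γ) (hF : ∀ w, F w ∈ FG k rel κ (s + κ w)) (r : Γ)
    (f : MvPolynomial M k) (hf : f ∈ FG k rel κ r) :
    mkDerivation k F f ∈ FG k rel κ (r + s) := by
  classical
  refine lin_FG ((mkDerivation k F : Derivation k (MvPolynomial M k) (MvPolynomial M k)) :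
    MvPolynomial M k →ₗ[k] MvPolynomial M k) _ f fun m hm => ?_
  rw [Derivation.coeFn_coe, mkDerivation_monomial, one_smul]
  rw [Finsupp.sum]
  refine Submodule.sum_mem _ fun w hw => ?_
  rw [smul_eq_mul]
  have h1 : monomial (m - Finsupp.single w 1) ((m w : ℕ) : k) ∈
      FG k rel κ ((m - Finsupp.single w 1).sum fun w n => n • κ w) :=
    monomial_mem_FG (hrefl _) _
  have h2 := mul_mem_FG hadd h1 (hF w)
  refine mono_FG htr ?_ h2
  have h3 : m = (m - Finsupp.single w 1) + Finsupp.single w 1 := by
    ext u
    by_cases hu : u = w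
    · subst hu
      have : m u ≠ 0 := Finsupp.mem_support_iff.1 hw
      simp
      omega
    · simp [hu]
  have h4 : ((m - Finsupp.single w 1).sum fun w n => n • κ w) + κ w
      = m.sum fun w n => n • κ w := by
    conv_rhs => rw [h3, wt_add, wt_single]
  have h5 : ((m - Finsupp.single w 1).sum fun w n => n • κ w) + (s + κ w)
      = (m.sum fun w n => n • κ w) + s := by
    rw [← h4]; abel
  rw [h5]
  exact hadd _ _ _ _ (hf m hm) (hrefl _)

end filt

/-! ## The filtration `Fil` and the claim (E3) -/

section fil
variable {k M : Type u} [Field k] [Monoid M]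

omit [Monoid M] in
theorem Fil_eq (a : M → ℚ) (r : ℚ) : Fil k a r = FG k (· ≤ ·) (fun w => 1 - a w) r := by
  ext f
  constructor
  · intro h m hm
    have := h m hm
    simpa [nsmul_eq_mul] using this
  · intro h m hm
    have := h m hm
    simpa [nsmul_eq_mul] using this

omit [Monoid M] in
theorem Fil_mul {a : M → ℚ} {r r' : ℚ} {f g : MvPolynomial M k} (hf : f ∈ Fil k a r)
    (hg : g ∈ Fil k a r') : f * g ∈ Fil k a (r + r') := by
  rw [Fil_eq] at *
  exact mul_mem_FG (fun _ _ _ _ h h' => add_le_add h h') hf hg

omit [Monoid M] in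
theorem Fil_mono {a : M → ℚ} {r r' : ℚ} (h : r ≤ r') : Fil k a r ≤ Fil k a r' := by
  rw [Fil_eq, Fil_eq]
  exact mono_FG (rel := (· ≤ ·)) (fun _ _ _ h h' => le_trans h h') h

omit [Monoid M] in
theorem Fil_X (a : M → ℚ) (w : M) : (X w : MvPolynomial M k) ∈ Fil k a (1 - a w) := by
  rw [Fil_eq]
  refine monomial_mem_FG (rel := (· ≤ ·)) ?_ 1
  rw [wt_single]

omit [Monoid M] in
theorem Fil_der {a : M → ℚ} (F : M → MvPolynomial M k) (s : ℚ)
    (hF : ∀ w, F w ∈ Fil k a (s + (1 - a w))) (r : ℚ) (f : MvPolynomial M k)
    (hf : f ∈ Fil k a r) : mkDerivation k F f ∈ Fil k a (r + s) := by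
  rw [Fil_eq] at *
  refine der_FG (fun _ _ _ _ h h' => add_le_add h h') (fun _ _ _ h h' => le_trans h h')
    (fun _ => le_refl _) F s (fun w => ?_) r f hf
  have := hF w
  rw [Fil_eq] at this
  exact this

theorem Dr_single_X (w u : M) :
    Dr (MonoidAlgebra.single w (1 : k)) (X u) = (X (u * w) : MvPolynomial M k) := by
  rw [Dr_X, MonoidAlgebra.single_mul_single, one_mul, iota_one_single]

theorem Fil_Dr {a : M → ℚ} (ha : IsAdd a) (w : M) {r : ℚ} {f : MvPolynomial M k}
    (hf : f ∈ Fil k a r) : Dr (MonoidAlgebra.single w (1 : k)) f ∈ Fil k a (r - a w) := by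
  have h := Fil_der (k := k) (a := a) (fun u => iota (MonoidAlgebra.single u 1 *
    MonoidAlgebra.single w (1 : k))) (-a w) (fun u => by
      rw [MonoidAlgebra.single_mul_single, one_mul, iota_one_single]
      have := Fil_X (k := k) a (u * w)
      rw [ha.map_mul] at this
      refine Fil_mono (le_of_eq ?_) this
      ring) r f hf
  rw [sub_eq_add_neg]
  exact h

/-- `Pi e` as a derivation. -/
noncomputable def PiD (e : MvPolynomial M k) :
    Derivation k (MvPolynomial M k) (MvPolynomial M k) :=
  mkDerivation k (fun w' => Dr (MonoidAlgebra.single w' (1 : k)) e)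

theorem Pi_eq (e f : MvPolynomial M k) : Pi e f = PiD e f := by
  rw [Pi, PiD]
  have h : ∀ w' : M, (mkDerivation k (fun w => (X (w * w') : MvPolynomial M k)))
      = Dr (MonoidAlgebra.single w' (1 : k)) := by
    intro w'
    apply MvPolynomial.derivation_ext
    intro u
    rw [mkDerivation_X, Dr_single_X]
  simp only [h]

theorem Fil_Pi {a : M → ℚ} (ha : IsAdd a) {r r' : ℚ} {e f : MvPolynomial M k}
    (he : e ∈ Fil k a r) (hf : f ∈ Fil k a r') : Pi e f ∈ Fil k a (r + r' - 1) := by
  rw [Pi_eq]
  have h := Fil_der (k := k) (a := a) (fun w' => Dr (MonoidAlgebra.single w' (1 : k)) e) (r - 1)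
    (fun w => by
      refine Fil_mono (le_of_eq ?_) (Fil_Dr ha w he)
      ring) r' f hf
  refine Fil_mono (le_of_eq ?_) h
  ring

/-- The claim (E3). -/
theorem E3 {a : M → ℚ} (ha : IsAdd a) (T : Module.End k (MvPolynomial M k))
    (hT : ∀ w : M, T * rhor (MonoidAlgebra.single w (1 : k))
      = rhor (MonoidAlgebra.single w (1 : k)) * T) {r : ℚ} (he : T 1 ∈ Fil k a r) (n : ℕ) :
    ∀ (r' : ℚ) (f : MvPolynomial M k), f ∈ Fil k (fun _ => 0) (n : ℚ) → f ∈ Fil k a r' →
      T f - T 1 * f - Pi (T 1) f ∈ Fil k a (r + r' - 2) := by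
  classical
  set L : MvPolynomial M k →ₗ[k] MvPolynomial M k :=
    T - LinearMap.mulLeft k (T 1) - (PiD (T 1) : MvPolynomial M k →ₗ[k] MvPolynomial M k)
    with hL
  have hLa : ∀ f, L f = T f - T 1 * f - Pi (T 1) f := by
    intro f
    rw [hL, Pi_eq]
    rfl
  have hL0 : L (monomial 0 1) = 0 := by
    have h1 : (monomial (0 : M →₀ ℕ) (1 : k)) = 1 := rfl
    rw [hLa, h1, Pi_eq]
    simp
  have hstep : ∀ (r' : ℚ) (w : M) (f' : MvPolynomial M k), f' ∈ Fil k a r' →
      L f' ∈ Fil k a (r + r' - 2) →
      L (Dr (MonoidAlgebra.single w (1 : k)) f') ∈ Fil k a (r + (r' - a w) - 2) →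
      L (X w * f') ∈ Fil k a (r + (r' + (1 - a w)) - 2) := by
    intro r' w f' hf' h1 h2
    have hc := LinearMap.congr_fun (hT w) f'
    rw [Module.End.mul_apply, Module.End.mul_apply, rhor_apply, rhor_apply, iota_one_single,
      map_add] at hc
    set D := Dr (MonoidAlgebra.single w (1 : k)) with hD
    have hkey : L (X w * f') = X w * L f' + D (L f') + D (Pi (T 1) f')
        - (L (D f') + Pi (T 1) (D f')) := by
      simp only [hLa]
      have h3 : T (X w * f') = X w * T f' + D (T f') - T (D f') := by
        rw [← hc]; ring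
      rw [h3]
      have h4 : Pi (T 1) (X w * f') = X w * Pi (T 1) f' + f' * D (T 1) := by
        rw [Pi_eq, Pi_eq, Derivation.leibniz, smul_eq_mul, smul_eq_mul]
        congr 2
        rw [PiD, mkDerivation_X]
      rw [h4]
      simp only [map_sub, Derivation.leibniz, smul_eq_mul]
      ring
    rw [hkey]
    have hDF : ∀ {s : ℚ} {g : MvPolynomial M k}, g ∈ Fil k a s → D g ∈ Fil k a (s - a w) :=
      fun hg => Fil_Dr ha w hg
    have m1 : X w * L f' ∈ Fil k a (r + (r' + (1 - a w)) - 2) :=
      Fil_mono (le_of_eq (by ring)) (Fil_mul (Fil_X a w) h1)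
    have m2 : D (L f') ∈ Fil k a (r + (r' + (1 - a w)) - 2) :=
      Fil_mono (by linarith) (hDF h1)
    have m3 : D (Pi (T 1) f') ∈ Fil k a (r + (r' + (1 - a w)) - 2) :=
      Fil_mono (by linarith) (hDF (Fil_Pi ha he hf'))
    have m4 : L (D f') ∈ Fil k a (r + (r' + (1 - a w)) - 2) :=
      Fil_mono (by linarith) h2
    have m5 : Pi (T 1) (D f') ∈ Fil k a (r + (r' + (1 - a w)) - 2) :=
      Fil_mono (by linarith) (Fil_Pi ha he (hDF hf'))
    exact Submodule.sub_mem _ (Submodule.add_mem _ (Submodule.add_mem _ m1 m2) m3)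
      (Submodule.add_mem _ m4 m5)
  have hz : IsAdd (fun _ : M => (0 : ℚ)) := ⟨rfl, fun _ _ => by simp⟩
  have hmem : ∀ (b : M → ℚ) (m : M →₀ ℕ) (s : ℚ), kap b m ≤ s →
      monomial m (1 : k) ∈ Fil k b s := by
    intro b m s h
    rw [Fil_eq]
    refine monomial_mem_FG (rel := (· ≤ ·)) ?_ 1
    simpa [kap, nsmul_eq_mul] using h
  have hkadd : ∀ (b : M → ℚ) (m m' : M →₀ ℕ), kap b (m + m') = kap b m + kap b m' := by
    intro b m m'
    have := wt_add (fun w => 1 - b w) m m'
    simpa [kap, nsmul_eq_mul] using this
  have hks : ∀ (b : M → ℚ) (w : M), kap b (Finsupp.single w 1) = 1 - b w := by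
    intro b w
    have := wt_single (fun w => 1 - b w) w
    simpa [kap, nsmul_eq_mul] using this
  have hk0 : ∀ m : M →₀ ℕ, m ≠ 0 → 1 ≤ kap (fun _ : M => (0 : ℚ)) m := by
    intro m hm
    obtain ⟨w, hw⟩ : ∃ w, m w ≠ 0 := by
      by_contra h
      push Not at h
      exact hm (Finsupp.ext h)
    rw [kap, Finsupp.sum]
    have h1 : ((m w : ℚ) * (1 - 0)) ≤ ∑ u ∈ m.support, (m u : ℚ) * (1 - 0) :=
      Finset.single_le_sum (f := fun u => (m u : ℚ) * (1 - 0)) (fun u _ => by positivity)
        (Finsupp.mem_support_iff.2 hw)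
    have h2 : (1 : ℚ) ≤ (m w : ℚ) := by
      exact_mod_cast Nat.one_le_iff_ne_zero.2 hw
    linarith
  induction n with
  | zero =>
    intro r' f h0 h1
    rw [← hLa]
    refine lin_FG L _ f fun m hm => ?_
    have h2 := (mem_Fil.1 h0) m hm
    have h3 : m = 0 := by
      by_contra h3
      have := hk0 m h3
      simp at h2
      linarith
    rw [h3, hL0]
    exact Submodule.zero_mem _
  | succ n ih =>
    intro r' f h0 h1
    rw [← hLa]
    refine lin_FG L _ f fun m hm => ?_
    have h2 := (mem_Fil.1 h0) m hm
    have h2' := (mem_Fil.1 h1) m hm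
    by_cases hm0 : m = 0
    · rw [hm0, hL0]
      exact Submodule.zero_mem _
    · obtain ⟨w, hw⟩ : ∃ w, m w ≠ 0 := by
        by_contra h
        push Not at h
        exact hm0 (Finsupp.ext h)
      obtain ⟨m', rfl⟩ : ∃ m', m = Finsupp.single w 1 + m' := by
        refine ⟨m - Finsupp.single w 1, ?_⟩
        rw [add_tsub_cancel_of_le]
        intro u
        by_cases hu : u = w
        · subst hu
          simp
          omega
        · simp [Finsupp.single_apply, Ne.symm hu]
      have hmm : monomial (Finsupp.single w 1 + m') (1 : k) = X w * monomial m' 1 := by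
        rw [X, monomial_mul, one_mul]
      rw [hmm]
      rw [hkadd, hks] at h2 h2'
      have hf0 : monomial m' (1 : k) ∈ Fil k (fun _ => 0) (n : ℚ) := by
        refine hmem _ _ _ ?_
        push_cast at h2
        linarith
      have hf1 : monomial m' (1 : k) ∈ Fil k a (r' - (1 - a w)) := hmem _ _ _ (by linarith)
      have := hstep (r' - (1 - a w)) w (monomial m' 1) hf1 ?_ ?_
      · refine Fil_mono (le_of_eq ?_) this
        ring
      · rw [hLa]
        exact ih _ _ hf0 hf1
      · rw [hLa]
        refine ih _ _ ?_ (Fil_Dr ha w hf1)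
        have := Fil_Dr hz w hf0
        simpa using this

end fil

/-! ## Linear parts -/

section lin
variable {k M : Type u} [Field k] [Monoid M]

/-- The functional `f ↦ ∑ (coefficient of X_w in f) * l w`. -/
noncomputable def theta (l : MonoidAlgebra k M →ₗ[k] k) : MvPolynomial M k →ₗ[k] k :=
  (MvPolynomial.aeval (fun _ => (0 : k)) : MvPolynomial M k →ₐ[k] k).toLinearMap ∘ₗ
    (mkDerivation k (fun w => C (l (MonoidAlgebra.single w 1))) :
      Derivation k (MvPolynomial M k) (MvPolynomial M k))

/-- The constant coefficient as an algebra map. -/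
noncomputable def cst : MvPolynomial M k →ₐ[k] k := MvPolynomial.aeval (fun _ => (0 : k))

omit [Monoid M] in
theorem cst_X (w : M) : cst (X w : MvPolynomial M k) = 0 := by
  simp [cst]

omit [Monoid M] in
theorem cst_C (c : k) : cst (C c : MvPolynomial M k) = c := by
  simp [cst]

omit [Monoid M] in
theorem theta_mul (l : MonoidAlgebra k M →ₗ[k] k) (f g : MvPolynomial M k) :
    theta l (f * g) = cst f * theta l g + cst g * theta l f := by
  rw [theta, LinearMap.comp_apply, LinearMap.comp_apply, LinearMap.comp_apply,
    Derivation.coeFn_coe, Derivation.leibniz, AlgHom.toLinearMap_apply, map_add, smul_eq_mul,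
    smul_eq_mul, map_mul, map_mul]
  rfl

omit [Monoid M] in
theorem theta_X (l : MonoidAlgebra k M →ₗ[k] k) (w : M) :
    theta l (X w) = l (MonoidAlgebra.single w 1) := by
  rw [theta, LinearMap.comp_apply, Derivation.coeFn_coe, mkDerivation_X,
    AlgHom.toLinearMap_apply]
  simp

omit [Monoid M] in
theorem theta_C (l : MonoidAlgebra k M →ₗ[k] k) (c : k) : theta l (C c) = 0 := by
  rw [theta, LinearMap.comp_apply, Derivation.coeFn_coe, derivation_C, map_zero]

omit [Monoid M] in
theorem theta_iota (l : MonoidAlgebra k M →ₗ[k] k) (b : MonoidAlgebra k M) :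
    theta l (iota b) = l b := by
  have h : theta l ∘ₗ iota = l := by
    apply lin_ext
    intro w
    rw [LinearMap.comp_apply, iota_one_single, theta_X]
  exact LinearMap.congr_fun h b

omit [Monoid M] in
theorem cst_iota (b : MonoidAlgebra k M) : cst (iota b) = 0 := by
  have h : (cst : MvPolynomial M k →ₐ[k] k).toLinearMap ∘ₗ iota = 0 := by
    apply lin_ext
    intro w
    rw [LinearMap.comp_apply, iota_one_single, AlgHom.toLinearMap_apply, cst_X]
    rfl
  exact LinearMap.congr_fun h b

theorem cst_Dl (g : MonoidAlgebra k M) (f : MvPolynomial M k) : cst (Dl g f) = 0 := by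
  induction f using MvPolynomial.induction_on with
  | C c => rw [derivation_C, map_zero]
  | add p q hp hq => rw [map_add, map_add, hp, hq, add_zero]
  | mul_X p w hp =>
    rw [Derivation.leibniz, map_add, smul_eq_mul, smul_eq_mul, map_mul, map_mul, hp, Dl_X,
      cst_iota]
    ring

theorem theta_Dl (l : MonoidAlgebra k M →ₗ[k] k) (g : MonoidAlgebra k M)
    (f : MvPolynomial M k) :
    theta l (Dl g f) = theta (l ∘ₗ LinearMap.mulLeft k g) f := by
  induction f using MvPolynomial.induction_on with
  | C c => rw [derivation_C, map_zero, theta_C]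
  | add p q hp hq => rw [map_add, map_add, map_add, hp, hq]
  | mul_X p w hp =>
    rw [Derivation.leibniz, map_add, smul_eq_mul, smul_eq_mul, theta_mul, theta_mul, theta_mul,
      hp, Dl_X, theta_iota, cst_iota, cst_X, cst_Dl, theta_X, theta_X]
    simp

omit [Monoid M] in
theorem theta_coeff (w : M) (f : MvPolynomial M k) (l : MonoidAlgebra k M →ₗ[k] k)
    (hl : ∀ b, l b = b.coeff w) : theta l f = f.coeff (Finsupp.single w 1) := by
  classical
  induction f using MvPolynomial.induction_on with
  | C c =>
    rw [theta_C, coeff_C, if_neg]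
    intro h
    have := DFunLike.congr_fun h w
    simp at this
  | add p q hp hq => rw [map_add, hp, hq, coeff_add]
  | mul_X p u hp =>
    rw [theta_mul, hp, theta_X, cst_X, zero_mul, add_zero, hl, coeff_mul_X',
      MonoidAlgebra.coeff_single]
    by_cases h : u = w
    · subst h
      have hc : cst p = coeff 0 p := by
        rw [cst, ← constantCoeff_eq]
        have := MvPolynomial.aeval_zero' (R := k) (S₁ := k) (σ := M) p
        rw [this]; rfl
      simp [hc]
    · rw [if_neg]
      · simp [Finsupp.single_apply, h]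
      · intro h'
        rw [Finsupp.mem_support_single] at h'
        exact h h'.1

end lin

/-! ## The theorem -/

section main
variable {k M : Type u} [Field k] [Monoid M]

omit [Monoid M] in
theorem comp_coeff (z : M → ℕ) (n : ℕ) (b : MonoidAlgebra k M) (w : M) :
    (comp z n b).coeff w = if z w = n then b.coeff w else 0 := by
  classical
  rw [comp, proj_coeff]
  split_ifs <;> rfl

theorem comp_single (z : M → ℕ) (n : ℕ) (w : M) (c : k) :
    comp z n (MonoidAlgebra.single w c)
      = if z w = n then MonoidAlgebra.single w c else 0 := by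
  classical
  ext u
  rw [comp_coeff]
  by_cases h : z w = n
  · rw [if_pos h]
    by_cases hu : z u = n
    · rw [if_pos hu]
    · rw [if_neg hu, MonoidAlgebra.coeff_single, Finsupp.single_apply, if_neg]
      rintro rfl
      exact hu h
  · rw [if_neg h]
    by_cases hu : z u = n
    · rw [if_pos hu, MonoidAlgebra.coeff_single, Finsupp.single_apply, if_neg]
      · rfl
      · rintro rfl
        exact h hu
    · rw [if_neg hu]
      rfl

theorem comp_mul (z : M → ℕ) (hz : IsAdd z) (n : ℕ) (b b' : MonoidAlgebra k M) :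
    comp z n (b * b') = ∑ p ∈ Finset.HasAntidiagonal.antidiagonal n, comp z p.1 b * comp z p.2 b' := by
  classical
  induction b using MonoidAlgebra.induction_linear with
  | zero => simp
  | add x y hx hy =>
    rw [add_mul, map_add, hx, hy, ← Finset.sum_add_distrib]
    refine Finset.sum_congr rfl fun p _ => ?_
    rw [map_add, add_mul]
  | single m r =>
    induction b' using MonoidAlgebra.induction_linear with
    | zero => simp
    | add x y hx hy =>
      rw [mul_add, map_add, hx, hy, ← Finset.sum_add_distrib]
      refine Finset.sum_congr rfl fun p _ => ?_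
      rw [map_add, mul_add]
    | single m' r' =>
      rw [MonoidAlgebra.single_mul_single, comp_single, hz.map_mul]
      by_cases h : z m + z m' = n
      · rw [if_pos h, Finset.sum_eq_single (z m, z m')]
        · rw [comp_single, comp_single, if_pos rfl, if_pos rfl,
            MonoidAlgebra.single_mul_single]
        · intro p _ hne
          rw [comp_single, comp_single]
          by_cases h1 : z m = p.1
          · by_cases h2 : z m' = p.2
            · exact absurd (Prod.ext h1.symm h2.symm) hne
            · rw [if_neg h2, mul_zero]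
          · rw [if_neg h1, zero_mul]
        · intro hn
          exact absurd (Finset.HasAntidiagonal.mem_antidiagonal.2 h) hn
      · rw [if_neg h]
        refine (Finset.sum_eq_zero fun p hp => ?_).symm
        rw [Finset.HasAntidiagonal.mem_antidiagonal] at hp
        rw [comp_single, comp_single]
        by_cases h1 : z m = p.1
        · by_cases h2 : z m' = p.2
          · exact absurd (by rw [h1, h2, hp]) h
          · rw [if_neg h2, mul_zero]
        · rw [if_neg h1, zero_mul]

omit [Monoid M] in
theorem comp_hom (z : M → ℕ) (n : ℕ) (b : MonoidAlgebra k M) (hb : Hom z n b) :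
    comp z n b = b := by
  ext w
  rw [comp_coeff]
  by_cases h : z w = n
  · rw [if_pos h]
  · rw [if_neg h]
    by_contra hne
    exact h (hb w (Ne.symm hne))

omit [Monoid M] in
theorem hom_comp (z : M → ℕ) (n : ℕ) (b : MonoidAlgebra k M) : Hom z n (comp z n b) := by
  intro w hw
  rw [comp_coeff] at hw
  by_contra h
  rw [if_neg h] at hw
  exact hw rfl

/-- The weight homogeneous polynomials. -/
noncomputable abbrev WH (k : Type u) [Field k] {M : Type u} (z : M → ℕ) (n : ℕ) :
    Submodule k (MvPolynomial M k) :=
  FG k (fun a b => a = b) z n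

omit [Monoid M] in
theorem iota_WH (z : M → ℕ) (n : ℕ) (b : MonoidAlgebra k M) (hb : Hom z n b) :
    iota b ∈ WH k z n := by
  classical
  have h : iota b = ∑ w ∈ b.coeff.support, b.coeff w • (X w : MvPolynomial M k) := rfl
  rw [h]
  refine Submodule.sum_mem _ fun w hw => Submodule.smul_mem _ _ ?_
  refine monomial_mem_FG (rel := fun a b => a = b) ?_ 1
  rw [wt_single]
  exact hb w (Finsupp.mem_support_iff.1 hw)

theorem rho_WH (z : M → ℕ) (hz : IsAdd z) (n : ℕ) (g : MonoidAlgebra k M) (hg : Hom z n g)
    (s : ℕ) (f : MvPolynomial M k) (hf : f ∈ WH k z s) : rho g f ∈ WH k z (s + n) := by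
  classical
  rw [rho_apply]
  refine Submodule.add_mem _ ?_ ?_
  · rw [mul_comm]
    exact mul_mem_FG (rel := fun a b => a = b) (fun a b c d h h' => by rw [h, h']) hf
      (iota_WH z n g hg)
  · refine der_FG (rel := fun a b => a = b) (fun a b c d h h' => by rw [h, h'])
      (fun _ _ _ h h' => h.trans h') (fun _ => rfl) _ n (fun w => ?_) s f hf
    refine iota_WH z _ _ ?_
    have h1 : comp z (n + z w) (g * MonoidAlgebra.single w 1) = g * MonoidAlgebra.single w 1 := by
      rw [comp_mul z hz, Finset.sum_eq_single (n, z w)]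
      · rw [comp_hom z n g hg, comp_single, if_pos rfl]
      · intro p hp hne
        rw [Finset.HasAntidiagonal.mem_antidiagonal] at hp
        rw [comp_single]
        by_cases h : z w = p.2
        · refine absurd (Prod.ext ?_ h.symm) hne
          show p.1 = n
          omega
        · rw [if_neg h, mul_zero]
      · intro hn
        exact absurd (Finset.HasAntidiagonal.mem_antidiagonal.2
          (show (n, z w).1 + (n, z w).2 = n + z w from rfl)) hn
    rw [← h1]
    exact hom_comp z _ _

end main

/-- Module R. -/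
theorem rep : RepStatement.{u} := by
  intro k M _ _ G hG
  classical
  let rhoG : G →ₗ⁅k⁆ Module.End k (MvPolynomial M k) :=
    { toLinearMap := rho ∘ₗ G.toSubmodule.subtype
      map_lie' := by
        intro x y
        show rho ((⁅x, y⁆ : G) : MonoidAlgebra k M) = ⁅rho (x : MonoidAlgebra k M), rho y⁆
        rw [LieSubalgebra.coe_bracket, LieRing.of_associative_ring_bracket,
          LieRing.of_associative_ring_bracket, rho_lie] }
  obtain ⟨R, hR⟩ := hG.ext (Module.End k (MvPolynomial M k)) rhoG
  have hRg : ∀ g ∈ G, R g = rho g := fun g hg => hR ⟨g, hg⟩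
  obtain ⟨eps, heps⟩ := hG.ext k (0 : G →ₗ⁅k⁆ k)
  have hepsg : ∀ g ∈ G, eps g = 0 := fun g hg => heps ⟨g, hg⟩
  let E : MonoidAlgebra k M →ₗ[k] MvPolynomial M k :=
    { toFun := fun b => R b 1
      map_add' := fun x y => by rw [map_add]; rfl
      map_smul' := fun c x => by rw [map_smul]; rfl }
  have hE : ∀ b, E b = R b 1 := fun _ => rfl
  -- induction principle
  have hind : ∀ P : MonoidAlgebra k M → Prop, (∀ g ∈ G, P g) → P 1 →
      (∀ x y, P x → P y → P (x + y)) → (∀ (c : k) x, P x → P (c • x)) →
      (∀ x y, P x → P y → P (x * y)) → ∀ b, P b := by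
    intro P h1 h2 h3 h4 h5 b
    have hb : b ∈ Algebra.adjoin k (G : Set (MonoidAlgebra k M)) := by
      rw [hG.gen]; trivial
    induction hb using Algebra.adjoin_induction with
    | mem x hx => exact h1 x hx
    | algebraMap r =>
      rw [Algebra.algebraMap_eq_smul_one]
      exact h4 r 1 h2
    | add x y _ _ hx hy => exact h3 x y hx hy
    | mul x y _ _ hx hy => exact h5 x y hx hy
  refine ⟨E, ⟨?_, ?_, ?_, ?_, ?_⟩⟩
  · rw [hE, map_one R, Module.End.one_apply]
  · intro g hg
    rw [hE, hRg g hg, rho_apply, mul_one, Derivation.map_one_eq_zero, add_zero]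
  · -- linear part
    have key : ∀ b b' : MonoidAlgebra k M,
        (cst (E b') = eps b' ∧ ∀ l : MonoidAlgebra k M →ₗ[k] k,
          theta l (E b') = l b' - eps b' * l 1) →
        (cst (E (b * b')) = eps (b * b') ∧ ∀ l : MonoidAlgebra k M →ₗ[k] k,
          theta l (E (b * b')) = l (b * b') - eps (b * b') * l 1) := by
      intro b
      refine hind (fun b => ∀ b' : MonoidAlgebra k M,
        (cst (E b') = eps b' ∧ ∀ l : MonoidAlgebra k M →ₗ[k] k,
          theta l (E b') = l b' - eps b' * l 1) →
        (cst (E (b * b')) = eps (b * b') ∧ ∀ l : MonoidAlgebra k M →ₗ[k] k,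
          theta l (E (b * b')) = l (b * b') - eps (b * b') * l 1)) ?_ ?_ ?_ ?_ ?_ b
      · intro g hg b' hb'
        have h1 : E (g * b') = iota g * E b' + Dl g (E b') := by
          rw [hE, map_mul R, Module.End.mul_apply, hRg g hg, ← hE, rho_apply]
        rw [h1]
        constructor
        · rw [map_add, map_mul cst, cst_iota, cst_Dl, map_mul eps, hepsg g hg]
          ring
        · intro l
          rw [map_add, theta_mul, cst_iota, theta_iota, theta_Dl, hb'.1, hb'.2, hb'.2,
            map_mul eps, hepsg g hg]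
          simp only [LinearMap.comp_apply, LinearMap.mulLeft_apply, mul_one]
          ring
      · intro b' hb'
        rw [one_mul]; exact hb'
      · intro x y hx hy b' hb'
        have h1 := hx b' hb'
        have h2 := hy b' hb'
        rw [add_mul]
        constructor
        · rw [map_add, map_add, h1.1, h2.1, map_add]
        · intro l
          rw [map_add, map_add, h1.2, h2.2, map_add, map_add]
          ring
      · intro c x hx b' hb'
        have h1 := hx b' hb'
        rw [smul_mul_assoc]
        constructor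
        · rw [map_smul, map_smul, h1.1, map_smul]
        · intro l
          rw [map_smul, map_smul, h1.2, map_smul, map_smul, smul_eq_mul, smul_eq_mul,
            smul_eq_mul]
          ring
      · intro x y hx hy b' hb'
        rw [mul_assoc]
        exact hx _ (hy _ hb')
    intro b w hw
    let l : MonoidAlgebra k M →ₗ[k] k :=
      { toFun := fun b => b.coeff w
        map_add' := fun x y => by simp
        map_smul' := fun c x => by simp }
    have hl : ∀ b, l b = b.coeff w := fun _ => rfl
    have h1 := (key b 1 ⟨by rw [hE, map_one R, Module.End.one_apply, map_one, map_one],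
      fun l => by
        rw [hE, map_one R, Module.End.one_apply, map_one eps, one_mul, sub_self]
        exact theta_C l 1⟩).2 l
    rw [mul_one] at h1
    rw [← theta_coeff w (E b) l hl, h1, hl, hl]
    have h2 : (1 : MonoidAlgebra k M).coeff w = 0 := by
      rw [MonoidAlgebra.one_def, MonoidAlgebra.coeff_single, Finsupp.single_apply,
        if_neg (Ne.symm hw)]
    rw [h2, mul_zero, sub_zero]
  · -- mul
    intro a ha r r' b b' hb hb'
    have hcomm : ∀ b : MonoidAlgebra k M, ∀ w : M,
        R b * rhor (MonoidAlgebra.single w (1 : k))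
          = rhor (MonoidAlgebra.single w (1 : k)) * R b := by
      intro b w
      refine hind (fun b => R b * rhor (MonoidAlgebra.single w (1 : k))
          = rhor (MonoidAlgebra.single w (1 : k)) * R b) ?_ ?_ ?_ ?_ ?_ b
      · intro g hg
        rw [hRg g hg]
        exact rho_rhor _ _
      · rw [map_one, one_mul, mul_one]
      · intro x y hx hy
        rw [map_add, add_mul, mul_add, hx, hy]
      · intro c x hx
        rw [map_smul, smul_mul_assoc, mul_smul_comm, hx]
      · intro x y hx hy
        rw [map_mul, mul_assoc, hy, ← mul_assoc, hx, mul_assoc]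
    obtain ⟨n, hn⟩ : ∃ n : ℕ, E b' ∈ Fil k (fun _ => (0 : ℚ)) (n : ℚ) := by
      refine ⟨(E b').support.sup (fun m => m.sum fun _ n => n), fun m hm => ?_⟩
      have h1 : (m.sum fun _ n => n) ≤ (E b').support.sup (fun m => m.sum fun _ n => n) :=
        Finset.le_sup (f := fun m : M →₀ ℕ => m.sum fun _ n => n) (mem_support_iff.2 hm)
      have h2 : (m.sum (fun w n => (n : ℚ) * (1 - 0))) = ((m.sum fun _ n => n : ℕ) : ℚ) := by
        rw [Finsupp.sum, Finsupp.sum]
        push_cast
        refine Finset.sum_congr rfl fun w _ => ?_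
        ring
      rw [h2]
      exact_mod_cast h1
    have h1 := E3 ha (R b) (hcomm b) hb n r' (E b') hn hb'
    have h2 : E (b * b') = R b (E b') := by
      rw [hE, map_mul R, Module.End.mul_apply, ← hE]
    rw [h2]
    exact h1
  · -- hom
    intro z hz hGz n b hb m hm
    have key : ∀ b : MonoidAlgebra k M, ∀ (n s : ℕ) (f : MvPolynomial M k), f ∈ WH k z s →
        R (comp z n b) f ∈ WH k z (s + n) := by
      intro b
      refine hind (fun b => ∀ (n s : ℕ) (f : MvPolynomial M k), f ∈ WH k z s →
        R (comp z n b) f ∈ WH k z (s + n)) ?_ ?_ ?_ ?_ ?_ b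
      · intro g hg n s f hf
        rw [hRg _ (hGz n g hg)]
        exact rho_WH z hz n _ (hom_comp z n g) s f hf
      · intro n s f hf
        rw [MonoidAlgebra.one_def, comp_single, hz.map_one]
        by_cases h : 0 = n
        · rw [if_pos h, ← MonoidAlgebra.one_def, map_one, Module.End.one_apply, ← h, add_zero]
          exact hf
        · rw [if_neg h, map_zero]
          exact Submodule.zero_mem _
      · intro x y hx hy n s f hf
        rw [map_add, map_add]
        exact Submodule.add_mem _ (hx n s f hf) (hy n s f hf)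
      · intro c x hx n s f hf
        rw [map_smul, map_smul]
        exact Submodule.smul_mem _ _ (hx n s f hf)
      · intro x y hx hy n s f hf
        rw [comp_mul z hz, map_sum, LinearMap.sum_apply]
        refine Submodule.sum_mem _ fun p hp => ?_
        rw [Finset.HasAntidiagonal.mem_antidiagonal] at hp
        rw [map_mul, Module.End.mul_apply]
        have h1 := hx p.1 _ _ (hy p.2 s f hf)
        rw [show s + n = s + p.2 + p.1 by omega]
        exact h1
    have h1 : (1 : MvPolynomial M k) ∈ WH k z 0 :=
      monomial_mem_FG (rel := fun a b => a = b) (by simp) 1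
    have h2 := key b n 0 1 h1
    rw [comp_hom z n b hb, zero_add] at h2
    have h3 := h2 m hm
    simpa using h3

end Pool.Agent.A55u.H52
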